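import Mathlib

namespace Pool.Agent.H.MP_4a2ece_lc

open MeasureTheory TopologicalSpace

/-- the real Banach lattice L1 of the unit interval -/
noncomputable abbrev L := Lp ℝ 1 (volume : Measure unitInterval)

/-- continuous L1-valued functions on the Cantor set, sup norm and pointwise order -/
abbrev C := C(ℕ → Bool, L)

/-- coanalytic, and every coanalytic subset of a zero-dimensional Polish space is a continuous
preimage -/
def PiComplete {Z : Type} [TopologicalSpace Z] (A : Set Z) : Prop :=
  AnalyticSet Aᶜ ∧ ∀ (Y : Type) [TopologicalSpace Y] [PolishSpace Y],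
    IsTopologicalBasis {s : Set Y | IsClopen s} → ∀ B : Set Y, AnalyticSet Bᶜ →
      ∃ f : Y → Z, Continuous f ∧ f ⁻¹' A = B

variable (E : Type) [NormedAddCommGroup E] [NormedSpace ℝ E] [Lattice E]

/-- closed sublattices -/
def Sublat := {F : Submodule ℝ E // IsClosed (F : Set E) ∧ ∀ y ∈ F, |y| ∈ F}

/-- the Wijsman topology attached to a sequence -/
@[reducible] noncomputable def wijsman (α : ℕ → E) : TopologicalSpace (Sublat E) :=
  .induced (fun F n => Metric.infDist (α n) (F.1 : Set E)) inferInstance

/-- strictly monotone sublattices -/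
def StrMono : Set (Sublat E) := {F | ∀ x ∈ F.1, ∀ y ∈ F.1, 0 < y → y ≤ x → ‖x - y‖ < ‖x‖}

/-- there is a dense sequence, and for each one the strictly monotone sublattices form a complete
coanalytic set in the Wijsman topology -/
def Sharp : Prop := (∃ α : ℕ → E, DenseRange α) ∧
  ∀ α : ℕ → E, DenseRange α → @PiComplete (Sublat E) (wijsman E α) (StrMono E)

end Pool.Agent.H.MP_4a2ece_lc
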