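import Mathlib
import Pool.Agent.H.MP_4a2ece_lc.Defs

namespace Pool.Agent.H.MP_4a2ece_lc

open MeasureTheory Set Filter Topology unitInterval

abbrev O := Option (ℕ × List ℕ)

abbrev Subl := Sublat C

noncomputable abbrev wijs (α : ℕ → C) := wijsman C α

abbrev STM := StrMono C

theorem exk : ∃ κ : I → O, (∀ w : O → ℝ, Measurable fun t => w (κ t)) ∧
    ∀ o, volume (κ ⁻¹' {o}) ≠ 0 := by
  obtain ⟨sg, hs⟩ := exists_surjective_nat O
  refine ⟨fun t => sg (⌊1 / (t : ℝ)⌋₊ - 1), fun w => ?_, fun o => ?_⟩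
  · exact (measurable_of_countable fun n : ℕ => w (sg (n - 1))).comp
      (Nat.measurable_floor.comp (measurable_const.div measurable_subtype_coe))
  · obtain ⟨n, rfl⟩ := hs o
    have h0 : (0 : ℝ) ≤ n := Nat.cast_nonneg n
    have m : ∀ r : ℝ, 1 ≤ r → 1 / r ∈ I := fun r hr =>
      ⟨by positivity, (div_le_one (by positivity)).2 hr⟩
    have hU : volume (Ioo (⟨_, m (n + 2) (by linarith)⟩ : I) ⟨_, m (n + 1) (by linarith)⟩) ≠ 0 := by
      rw [unitInterval.volume_Ioo, Ne, ENNReal.ofReal_eq_zero, not_le, sub_pos]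
      exact one_div_lt_one_div_of_lt (by positivity) (by linarith)
    refine fun h => hU (measure_mono_null (fun t (ht : (1 : ℝ) / (n + 2) < t ∧
      (t : ℝ) < 1 / (n + 1)) => ?_) h)
    · have p : (0 : ℝ) < t := lt_trans (by positivity) ht.1
      have : ⌊1 / (t : ℝ)⌋₊ = n + 1 := by
        rw [Nat.floor_eq_iff (by positivity)]
        push_cast
        constructor
        · exact ((lt_one_div p (by positivity)).1 ht.2).le
        · have := (one_div_lt (by positivity) p).1 ht.1
          linarith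
      show sg (⌊1 / (t : ℝ)⌋₊ - 1) ∈ ({sg n} : Set O)
      rw [this]; simp

noncomputable def κ : I → O := exk.choose

theorem κ_meas (w : O → ℝ) : Measurable fun t => w (κ t) := exk.choose_spec.1 w

theorem mem (w : O → I) (g : L) : MemLp (fun t => (w (κ t) : ℝ) * g t) 1 volume :=
  (Lp.memLp g).of_le ((κ_meas fun o => w o).aestronglyMeasurable.mul (Lp.aestronglyMeasurable g))
    (Eventually.of_forall fun t => by
      rw [norm_mul, Real.norm_of_nonneg (w _).2.1]
      exact mul_le_of_le_one_left (norm_nonneg _) (w _).2.2)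

noncomputable def M0 (w : O → I) : L →ₗ[ℝ] L where
  toFun g := (mem w g).toLp _
  map_add' f g := Lp.ext (by
    filter_upwards [(mem w (f + g)).coeFn_toLp, (mem w f).coeFn_toLp, (mem w g).coeFn_toLp,
      Lp.coeFn_add f g, Lp.coeFn_add ((mem w f).toLp _) ((mem w g).toLp _)] with t a b c d e
    rw [a, e, d, Pi.add_apply, Pi.add_apply, b, c, mul_add])
  map_smul' r g := Lp.ext (by
    filter_upwards [(mem w (r • g)).coeFn_toLp, (mem w g).coeFn_toLp,
      Lp.coeFn_smul r g, Lp.coeFn_smul r ((mem w g).toLp _)] with t a b c d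
    rw [a, RingHom.id_apply, d, c, Pi.smul_apply, Pi.smul_apply, b, smul_eq_mul, smul_eq_mul]
    ring)

theorem M0_le (w : O → I) (g : L) : ‖M0 w g‖ ≤ 1 * ‖g‖ := by
  rw [one_mul]
  refine Lp.norm_le_norm_of_ae_le ?_
  filter_upwards [(mem w g).coeFn_toLp] with t a
  have : (M0 w g) t = w (κ t) * g t := a
  rw [this, norm_mul, Real.norm_of_nonneg (w _).2.1]
  exact mul_le_of_le_one_left (norm_nonneg _) (w _).2.2

/-- multiplication operators -/
noncomputable def M (w : O → I) : L →L[ℝ] L := (M0 w).mkContinuous 1 (M0_le w)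

theorem M_coe (w : O → I) (g : L) : ∀ᵐ t, M w g t = w (κ t) * g t := (mem w g).coeFn_toLp

theorem M_le (w : O → I) (g : L) : ‖M w g‖ ≤ ‖g‖ := (M0_le w g).trans_eq (one_mul _)

theorem M_cont : Continuous fun p : (O → I) × L => M p.1 p.2 := by
  refine continuous_prod_of_continuous_lipschitzWith' _ 1 (fun w => ?_) fun g => ?_
  · refine LipschitzWith.of_dist_le_mul fun f g => ?_
    rw [dist_eq_norm, dist_eq_norm, ← map_sub, NNReal.coe_one, one_mul]
    exact M_le _ _
  · refine continuous_iff_continuousAt.2 fun v => tendsto_iff_norm_sub_tendsto_zero.2 ?_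
    have e : ∀ w, ‖M w g - M v g‖ = ∫ t, |(w (κ t) : ℝ) - v (κ t)| * |g t| := fun w => by
      rw [L1.norm_eq_integral_norm]
      refine integral_congr_ae ?_
      filter_upwards [M_coe w g, M_coe v g, Lp.coeFn_sub (M w g) (M v g)] with t a b c
      rw [c, Pi.sub_apply, a, b, ← sub_mul, Real.norm_eq_abs, abs_mul]
    have c : Continuous fun w : O → I => ∫ t, |(w (κ t) : ℝ) - v (κ t)| * |g t| := by
      refine continuous_of_dominated (bound := fun t => |g t|) (fun w => ?_) (fun w => ?_)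
        (L1.integrable_coeFn g).abs (Eventually.of_forall fun t => by fun_prop)
      · exact (κ_meas fun o => |(w o : ℝ) - v o|).aestronglyMeasurable.mul
          (L1.integrable_coeFn g).abs.aestronglyMeasurable
      · refine Eventually.of_forall fun t => ?_
        rw [Real.norm_of_nonneg (by positivity)]
        refine mul_le_of_le_one_left (abs_nonneg _) (abs_le.2 ⟨?_, ?_⟩) <;>
          linarith [(w (κ t)).2.1, (w (κ t)).2.2, (v (κ t)).2.1, (v (κ t)).2.2]
    simp only [e]
    simpa using c.tendsto v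

theorem M_congr {w v w' v' : O → I} (h : ∀ o, (w o : ℝ) * v o = w' o * v' o) (g : L) :
    M w (M v g) = M w' (M v' g) := Lp.ext (by
  filter_upwards [M_coe w (M v g), M_coe v g, M_coe w' (M v' g), M_coe v' g] with t a b c d
  rw [a, b, c, d, ← mul_assoc, h, mul_assoc])

theorem M_abs (w : O → I) (g : L) : |M w g| = M w |g| := Lp.ext (by
  filter_upwards [M_coe w g, M_coe w |g|, Lp.coeFn_abs g, Lp.coeFn_abs (M w g)] with t a b c d
  rw [d, a, b, c, abs_mul, abs_of_nonneg (w _).2.1])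

theorem M_const {w : O → I} {r : ℝ} (h : ∀ o, (w o : ℝ) = r) (g : L) : M w g = r • g := Lp.ext (by
  filter_upwards [M_coe w g, Lp.coeFn_smul r g] with t a b
  rw [a, b, h]; rfl)

theorem M_nonneg (w : O → I) {g : L} (h : 0 ≤ g) : 0 ≤ M w g := by
  rw [← abs_of_nonneg h, ← M_abs]; exact abs_nonneg _

theorem M_inj {w : O → I} (hw : ∀ o, (0 : ℝ) < w o) {g : L} (h : M w g = 0) : g = 0 := Lp.ext (by
  filter_upwards [M_coe w g, Lp.coeFn_zero ℝ 1 (volume : Measure I)] with t a b
  rw [h, b] at a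
  rw [b]
  exact (mul_eq_zero.1 a.symm).resolve_left (hw _).ne')

theorem norm_eq {g : L} (h : 0 ≤ g) : ‖g‖ = L1.integralCLM g := by
  rw [L1.norm_eq_integral_norm, ← L1.integral_eq, L1.integral_eq_integral]
  refine integral_congr_ae ?_
  filter_upwards [(Lp.coeFn_nonneg g).2 h] with t a
  exact Real.norm_of_nonneg a

theorem norm_add {f g : L} (hf : 0 ≤ f) (hg : 0 ≤ g) : ‖f + g‖ = ‖f‖ + ‖g‖ := by
  rw [norm_eq hf, norm_eq hg, norm_eq (add_nonneg hf hg), map_add]

open Classical in
/-- indicator weights -/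
noncomputable def ι (S : O → Prop) (o : O) : I := if S o then 1 else 0

theorem M_mono {w v : O → I} {S : O → Prop} (h : ∀ o, S o → w o ≤ v o) {g : L}
    (hg : M (ι S) g = g) : ‖M w g‖ ≤ ‖M v g‖ := by
  refine Lp.norm_le_norm_of_ae_le ?_
  filter_upwards [M_coe w g, M_coe v g, M_coe (ι S) g] with t a b c
  rw [hg] at c
  rw [a, b, norm_mul, norm_mul, Real.norm_of_nonneg (w _).2.1, Real.norm_of_nonneg (v _).2.1]
  by_cases e : S (κ t)
  · exact mul_le_mul_of_nonneg_right (h _ e) (norm_nonneg _)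
  · simp only [ι, if_neg e, Icc.coe_zero, zero_mul] at c
    simp [c]

theorem M_est (S S' : O → Prop) (f : L) {x : L} (hx : M (ι S') x = x) :
    ‖f - M (ι S) x‖ ≤ ‖f - x‖ + ‖M (ι fun o => ¬ (S o ↔ S' o)) f‖ := by
  have : f - M (ι S) x = M (ι fun o => S o ↔ S' o) (f - x) + M (ι fun o => ¬ (S o ↔ S' o)) f := by
    refine Lp.ext ?_
    filter_upwards [M_coe (ι S) x, M_coe (ι S') x, M_coe (ι fun o => S o ↔ S' o) (f - x),
      M_coe (ι fun o => ¬ (S o ↔ S' o)) f, Lp.coeFn_sub f x, Lp.coeFn_sub f (M (ι S) x),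
      Lp.coeFn_add (M (ι fun o => S o ↔ S' o) (f - x)) (M (ι fun o => ¬ (S o ↔ S' o)) f)]
      with t a b c d e h i
    rw [hx] at b
    rw [h, i, Pi.sub_apply, Pi.add_apply, a, c, d, e, Pi.sub_apply]
    by_cases u : S (κ t) <;> by_cases v : S' (κ t) <;> simp [ι, u, v] at b ⊢ <;> simp [b]
  rw [this]
  exact (norm_add_le _ _).trans (add_le_add_left (M_le _ _) _)

theorem κ_atom (o : O) : MeasurableSet (κ ⁻¹' {o}) := by
  have := κ_meas fun p => ι (· = o) p
  convert this (measurableSet_singleton 1) using 1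
  ext t
  by_cases h : κ t = o <;> simp [ι, h]

/-- normalized atoms -/
noncomputable def e (o : O) : L :=
  indicatorConstLp 1 (κ_atom o) (measure_ne_top _ _) (volume.real (κ ⁻¹' {o}))⁻¹

theorem e_norm (o : O) : ‖e o‖ = 1 := by
  have : volume.real (κ ⁻¹' {o}) ≠ 0 := by
    rw [Ne, measureReal_eq_zero_iff]; exact exk.choose_spec.2 o
  rw [e, norm_indicatorConstLp one_ne_zero ENNReal.one_ne_top,
    Real.norm_of_nonneg (inv_nonneg.2 measureReal_nonneg)]
  simp [this]

theorem e_nonneg (o : O) : 0 ≤ e o := (Lp.coeFn_nonneg _).1 (by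
  filter_upwards [indicatorConstLp_coeFn (p := 1) (hs := κ_atom o) (hμs := measure_ne_top _ _)
    (c := (volume.real (κ ⁻¹' {o}))⁻¹)] with t a
  rw [e, a]
  exact indicator_nonneg (fun _ _ => inv_nonneg.2 measureReal_nonneg) _)

theorem M_e (w : O → I) (o : O) : M w (e o) = (w o : ℝ) • e o := Lp.ext (by
  filter_upwards [indicatorConstLp_coeFn (p := 1) (hs := κ_atom o) (hμs := measure_ne_top _ _)
    (c := (volume.real (κ ⁻¹' {o}))⁻¹), M_coe w (e o), Lp.coeFn_smul (w o : ℝ) (e o)] with t a b c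
  rw [b, c, Pi.smul_apply, smul_eq_mul]
  by_cases h : κ t = o
  · rw [h]
  · rw [e, a, indicator_of_notMem (by exact h), mul_zero, mul_zero])

end Pool.Agent.H.MP_4a2ece_lc
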