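import Mathlib
import Pool.Agent.H.MP_4a2ece_lc.A
import Pool.Agent.H.MP_86dbc5_an.B

namespace Pool.Agent.H.MP_4a2ece_lc

open MeasureTheory Set Filter Topology unitInterval Pool.Agent.H.MP_86dbc5_an

/-- the path coded by a point of the Cantor set, stopped at the first flag -/
def In (δ : ℕ → Bool) : List ℕ → Prop
  | [] => True
  | k :: s => In δ s ∧ δ (Nat.pair 0 s.length) = false ∧ δ (Nat.pair (s.length + 1) k) = true ∧
      ∀ j < k, δ (Nat.pair (s.length + 1) j) = false

theorem In_clopen (s : List ℕ) : IsClopen {δ | In δ s} := by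
  have b : ∀ n c, IsClopen {δ : ℕ → Bool | δ n = c} := fun n c =>
    (isClopen_discrete {c}).preimage (continuous_apply n)
  induction s with
  | nil => exact isClopen_univ
  | cons k s ih =>
    refine ih.inter ((b _ _).inter ((b _ _).inter ?_))
    have := isClopen_biInter_finset (s := Finset.range k)
      (f := fun j => {δ : ℕ → Bool | δ (Nat.pair (s.length + 1) j) = false}) fun j _ => b _ _
    convert this using 1
    ext δ
    simp only [mem_iInter, Finset.mem_range]
    rfl

theorem abs_smul' {r : ℝ} (hr : 0 ≤ r) (g : L) : |r • g| = r • |g| := Lp.ext (by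
  filter_upwards [Lp.coeFn_abs (r • g), Lp.coeFn_smul r g, Lp.coeFn_smul r |g|, Lp.coeFn_abs g]
    with t a b c d
  rw [a, b, c, Pi.smul_apply, Pi.smul_apply, d, smul_eq_mul, smul_eq_mul, abs_mul,
    abs_of_nonneg hr])

theorem In_path (δ : ℕ → Bool) : ∃ b, ∀ s, In δ s → s = nd b s.length := by
  refine ⟨fun n => sInf {j | δ (Nat.pair (n + 1) j) = true}, fun s => ?_⟩
  induction s with
  | nil => exact fun _ => rfl
  | cons k s ih =>
    rintro ⟨h1, -, h3, h4⟩
    rw [List.length_cons, nd, ← ih h1]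
    congr 1
    refine le_antisymm (not_lt.1 fun h => ?_) (Nat.sInf_le h3)
    have := Nat.sInf_mem (s := {j | δ (Nat.pair (s.length + 1) j) = true}) ⟨k, h3⟩
    rw [mem_ofPred_eq, h4 _ h] at this
    exact absurd this (by simp)

theorem In_update {δ : ℕ → Bool} {n : ℕ} {s : List ℕ} (h : In δ s) (hs : s.length ≤ n) :
    In (Function.update δ (Nat.pair 0 n) true) s := by
  induction s with
  | nil => trivial
  | cons k s ih =>
    obtain ⟨h1, h2, h3, h4⟩ := h
    rw [List.length_cons] at hs
    refine ⟨ih h1 (by omega), ?_, ?_, fun j hj => ?_⟩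
    · rw [Function.update_of_ne (by simp [Nat.pair_eq_pair]; omega), h2]
    · rw [Function.update_of_ne (by simp [Nat.pair_eq_pair]), h3]
    · rw [Function.update_of_ne (by simp [Nat.pair_eq_pair]), h4 j hj]

theorem In_branch (b : ℕ → ℕ) : ∃ δ, ∀ n, In δ (nd b n) := by
  refine ⟨fun m => decide (m.unpair.1 ≠ 0 ∧ m.unpair.2 = b (m.unpair.1 - 1)), fun n => ?_⟩
  induction n with
  | zero => trivial
  | succ n ih =>
    refine ⟨ih, by simp, by simp [nd_length], fun j hj => ?_⟩
    simp [nd_length]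
    omega

/-- flag weights -/
noncomputable def fl (δ : ℕ → Bool) (k : ℕ) : ℝ :=
  if δ (Nat.pair 0 k) = true then 1 / 2 / 2 / 2 ^ k else 0

theorem fl_nonneg (δ : ℕ → Bool) (k : ℕ) : 0 ≤ fl δ k := by
  unfold fl; split_ifs <;> positivity

theorem fl_le (δ : ℕ → Bool) (k : ℕ) : fl δ k ≤ 1 / 2 / 2 / 2 ^ k := by
  unfold fl; split_ifs
  · rfl
  · positivity

theorem fl_sum (δ : ℕ → Bool) : Summable (fl δ) :=
  .of_nonneg_of_le (fl_nonneg δ) (fl_le δ) (hasSum_geometric_two' _).summable

open Classical in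
/-- the weights -/
noncomputable def c (δ : ℕ → Bool) : O → I
  | none => ⟨∑' k, fl δ k, tsum_nonneg (fl_nonneg δ), ((fl_sum δ).tsum_le_tsum (fl_le δ)
      (hasSum_geometric_two' _).summable).trans (by rw [tsum_geometric_two']; norm_num)⟩
  | some p => if In δ (p.1 :: p.2) then 1 else ⟨1 / 2, by norm_num, by norm_num⟩

theorem c_cont : Continuous c := by
  classical
  refine continuous_pi fun o => ?_
  cases o with
  | none =>
    refine Continuous.subtype_mk (continuous_tsum (fun k => ?_)
      (hasSum_geometric_two' (1 / 2)).summable fun k δ => ?_) _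
    · exact (continuous_of_discreteTopology (f := fun b : Bool =>
        if b = true then (1 / 2 / 2 / 2 ^ k : ℝ) else 0)).comp (continuous_apply _)
    · rw [Real.norm_of_nonneg (fl_nonneg _ _)]; exact fl_le _ _
  | some p =>
    refine Continuous.if (fun a ha => ?_) continuous_const continuous_const
    rw [(In_clopen _).frontier_eq] at ha
    exact ha.elim

theorem c_top (o : O) : (c (fun _ => true) o : ℝ) = 1 / 2 := by
  cases o with
  | none => simpa [c, fl] using tsum_geometric_two' (1 / 2)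
  | some p => simp [c, In]

theorem c_pos (δ : ℕ → Bool) (p : ℕ × List ℕ) : (0 : ℝ) < c δ (some p) := by
  simp only [c]; split_ifs <;> simp

/-- the embedding -/
noncomputable def Φ (g : L) : C := ⟨fun δ => M (c δ) g, M_cont.comp (c_cont.prodMk continuous_const)⟩

/-- the sublattice attached to a set of atoms -/
noncomputable def F (S : O → Prop) : Subl :=
  ⟨{ carrier := {x | ∀ δ, x δ = M (c δ) (M (ι S) ((2 : ℝ) • x fun _ => true))}
     add_mem' := fun {x y} hx hy δ => by
       rw [ContinuousMap.add_apply, ContinuousMap.add_apply, smul_add, map_add, map_add,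
         ← hx δ, ← hy δ]
     zero_mem' := fun δ => by simp
     smul_mem' := fun r x hx δ => by
       rw [ContinuousMap.smul_apply, ContinuousMap.smul_apply, smul_comm, map_smul, map_smul,
         ← hx δ] }, by
    show IsClosed {x : C | ∀ δ, x δ = M (c δ) (M (ι S) ((2 : ℝ) • x fun _ => true))}
    rw [ofPred_forall]
    exact isClosed_iInter fun δ => isClosed_eq (by fun_prop) (by fun_prop), fun y hy δ => by
    rw [ContinuousMap.abs_apply, ContinuousMap.abs_apply, hy δ, M_abs, M_abs,
      abs_smul' zero_le_two]⟩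

theorem ι_idem (S : O → Prop) (g : L) : M (ι S) (M (ι S) g) = M (ι S) g := by
  rw [M_congr (w' := 1) (v' := ι S), M_const (r := 1) (fun _ => rfl), one_smul]
  intro o
  by_cases h : S o <;> simp [ι, h]

theorem mem_F {S : O → Prop} {x : C} : x ∈ (F S).1 ↔ ∃ g, M (ι S) g = g ∧ x = Φ g := by
  constructor
  · exact fun h => ⟨_, ι_idem S _, ContinuousMap.ext h⟩
  · rintro ⟨g, h, rfl⟩ δ
    show M (c δ) g = M (c δ) (M (ι S) ((2 : ℝ) • M (c fun _ => true) g))
    rw [M_const c_top, smul_smul]
    norm_num [h]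

theorem F_est (S S' : O → Prop) (α q : C) (hq : ∀ δ, q δ = M (ι fun o => ¬ (S o ↔ S' o)) (α δ)) :
    Metric.infDist α (F S).1 ≤ Metric.infDist α (F S').1 + ‖q‖ := by
  rw [← sub_le_iff_le_add, Metric.le_infDist ⟨0, (F S').1.zero_mem⟩]
  intro x hx
  obtain ⟨g, hg, rfl⟩ := mem_F.1 hx
  rw [sub_le_iff_le_add]
  refine (Metric.infDist_le_dist_of_mem (mem_F.2 ⟨_, ι_idem S g, rfl⟩)).trans ?_
  rw [ContinuousMap.dist_le (by positivity)]
  intro δ
  have e1 : Φ (M (ι S) g) δ = M (ι S) (Φ g δ) := M_congr (fun o => mul_comm _ _) g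
  have e2 : M (ι S') (Φ g δ) = Φ g δ :=
    (M_congr (fun o => mul_comm _ _) g).trans (congrArg (M (c δ)) hg)
  rw [e1, dist_eq_norm]
  refine (M_est S S' _ e2).trans (add_le_add ?_ ?_)
  · rw [← dist_eq_norm]; exact ContinuousMap.dist_apply_le_dist δ
  · rw [← hq]; exact q.norm_coe_le_norm δ

theorem F_cont {Y : Type} [TopologicalSpace Y] {T : Y → O → Prop}
    (hT : ∀ o, IsLocallyConstant fun y => T y o) (α : C) :
    Continuous fun y => Metric.infDist α (F (T y)).1 := by
  refine continuous_iff_continuousAt.2 fun z => ?_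
  have c1 : Continuous fun y => ι fun o => ¬ (T y o ↔ T z o) := continuous_pi fun o =>
    ((hT o).comp fun P => ι (fun _ => ¬ (P ↔ T z o)) o).continuous
  obtain ⟨q, hq⟩ : ∃ q : C(Y, C), ∀ y δ, q y δ = M (ι fun o => ¬ (T y o ↔ T z o)) (α δ) :=
    ⟨ContinuousMap.curry ⟨_, M_cont.comp ((c1.comp continuous_fst).prodMk
      (α.continuous.comp continuous_snd))⟩, fun _ _ => rfl⟩
  have q0 : q z = 0 := ContinuousMap.ext fun δ => by
    rw [hq, M_const (r := 0) (by simp [ι]), zero_smul]; rfl
  have := q.continuous.norm.tendsto z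
  rw [q0, norm_zero] at this
  refine tendsto_iff_dist_tendsto_zero.2 (squeeze_zero (fun _ => dist_nonneg) (fun y => ?_) this)
  rw [Real.dist_eq, abs_le]
  have a := F_est (T y) (T z) α (q y) (hq y)
  have b := F_est (T z) (T y) α (q y) fun δ => by simp only [hq, iff_comm]
  constructor <;> linarith

theorem F_stm {S : O → Prop} (h : ∀ b, ∃ n, ∀ p : ℕ × List ℕ, S (some p) →
    p.1 :: p.2 = nd b (p.2.length + 1) → p.2.length < n) : F S ∈ STM := by
  intro x hx y hy y0 yx
  obtain ⟨g, hg, rfl⟩ := mem_F.1 hx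
  obtain ⟨f, hf, rfl⟩ := mem_F.1 hy
  have t : ∀ g, Φ g (fun _ => true) = (1 / 2 : ℝ) • g := fun g => M_const c_top g
  obtain ⟨δ, -, hδ⟩ := isCompact_univ.exists_isMaxOn univ_nonempty
    (Φ g - Φ f).continuous.norm.continuousOn
  obtain ⟨b, hb⟩ := In_path δ
  obtain ⟨n, hn⟩ := h b
  obtain ⟨η, hη⟩ : ∃ η, η = Function.update δ (Nat.pair 0 n) true := ⟨_, rfl⟩
  have f1 : ∀ k, fl δ k ≤ fl η k := fun k => by
    by_cases e : k = n
    · have : fl η k = 1 / 2 / 2 / 2 ^ k := by simp [fl, hη, e]
      rw [this]; exact fl_le _ _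
    · simp [fl, hη, Function.update_of_ne, Nat.pair_eq_pair, e]
  have p1 : ∀ o, (0 : ℝ) < c η o := fun o => by
    cases o with
    | none => exact (fl_sum η).tsum_pos (fl_nonneg η) n (by simp [fl, hη])
    | some p => exact c_pos _ _
  have m : ∀ o, S o → c δ o ≤ c η o := fun o ho => by
    cases o with
    | none => exact (fl_sum δ).tsum_le_tsum f1 (fl_sum η)
    | some p =>
      by_cases e : In δ (p.1 :: p.2)
      · have := In_update (n := n) e (hn p ho (hb _ e))
        have t1 : c η (some p) = 1 := by rw [hη]; exact if_pos this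
        rw [t1]
        exact le_top
      · simp only [c, if_neg e]
        split_ifs
        · exact le_top
        · rfl
  have a1 : ‖Φ g - Φ f‖ ≤ ‖M (c η) (g - f)‖ :=
    ((ContinuousMap.norm_le _ (norm_nonneg _)).2 fun ζ => hδ (mem_univ ζ)).trans (by
      show ‖M (c δ) g - M (c δ) f‖ ≤ _
      rw [← map_sub]
      exact M_mono m (by rw [map_sub, hg, hf]))
  have a2 : ‖M (c η) g‖ = ‖M (c η) (g - f)‖ + ‖M (c η) f‖ := by
    have u1 : 0 ≤ M (c η) (g - f) := by rw [map_sub]; exact sub_nonneg.2 (yx η)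
    have u2 : 0 ≤ M (c η) f := y0.le η
    rw [← norm_add u1 u2, ← map_add, sub_add_cancel]
  have a3 : M (c η) f ≠ 0 := fun e => y0.ne' (ContinuousMap.ext fun ζ => by
    rw [M_inj p1 e]; exact map_zero (M (c ζ)))
  have a4 : ‖M (c η) g‖ ≤ ‖Φ g‖ := (Φ g).norm_coe_le_norm η
  linarith [norm_pos_iff.2 a3]

theorem F_not {S : O → Prop} (h0 : S none) {b : ℕ → ℕ} (hb : ∀ n, S (some (b n, nd b n))) :
    F S ∉ STM := by
  intro h
  have s1 : ∀ w : O → I, Summable fun n =>
      ‖((1 / 2 / 2 ^ n : ℝ) * w (some (b n, nd b n))) • e (some (b n, nd b n))‖ := fun w =>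
    .of_nonneg_of_le (fun _ => norm_nonneg _) (fun n => by
      rw [norm_smul, e_norm, mul_one, Real.norm_of_nonneg (mul_nonneg (by positivity) (w _).2.1)]
      exact mul_le_of_le_one_right (by positivity) (w _).2.2) (hasSum_geometric_two' 1).summable
  obtain ⟨G, hG⟩ : Summable fun n => (1 / 2 / 2 ^ n : ℝ) • e (some (b n, nd b n)) := by
    simpa using (s1 1).of_norm
  have mG : ∀ w : O → I, HasSum (fun n =>
      ((1 / 2 / 2 ^ n : ℝ) * w (some (b n, nd b n))) • e (some (b n, nd b n))) (M w G) := fun w => by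
    simpa only [map_smul, M_e, smul_smul] using hG.mapL (M w)
  have G0 : 0 ≤ G := hG.nonneg fun n => by
    rw [← abs_of_nonneg (e_nonneg _), ← abs_smul' (by positivity)]; exact abs_nonneg _
  have G1 : ‖G‖ = 1 := by
    rw [norm_eq G0]
    refine (hG.mapL L1.integralCLM).unique ?_
    simpa only [map_smul, ← norm_eq (e_nonneg _), e_norm, smul_eq_mul, mul_one] using
      hasSum_geometric_two' 1
  have fx : ∀ w : O → I, (∀ n, w (some (b n, nd b n)) = 1) → M w G = G := fun w hw =>
    (mG w).unique (by simpa only [hw, Icc.coe_one, mul_one] using hG)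
  have e0 : M (ι S) (e none) = e none := by rw [M_e]; simp [ι, h0]
  have k := h (Φ (G + e none)) (mem_F.2 ⟨_, by rw [map_add, e0, fx _ fun n => if_pos (hb n)], rfl⟩)
    (Φ (e none)) (mem_F.2 ⟨_, e0, rfl⟩) (lt_of_le_of_ne (fun δ => M_nonneg _ (e_nonneg _))
      fun z => ?_) fun δ => ?_
  · obtain ⟨δ, hδ⟩ := In_branch b
    have a1 := (Φ (G + e none) - Φ (e none)).norm_coe_le_norm δ
    have : (Φ (G + e none) - Φ (e none)) δ = G := by
      show M (c δ) (G + e none) - M (c δ) (e none) = G
      rw [map_add, add_sub_cancel_right]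
      exact fx _ fun n => if_pos (hδ (n + 1))
    rw [this, G1] at a1
    refine (a1.trans_lt k).not_ge ((ContinuousMap.norm_le _ zero_le_one).2 fun η => ?_)
    show ‖M (c η) (G + e none)‖ ≤ 1
    rw [map_add, M_e]
    refine (norm_add_le _ _).trans ?_
    have u1 : ‖(c η none : ℝ) • e none‖ = ∑' k, fl η k := by
      rw [norm_smul, e_norm, mul_one, Real.norm_of_nonneg (c η none).2.1]
      rfl
    have u2 := (mG (c η)).norm_le_of_bounded (s1 (c η)).hasSum fun _ => le_rfl
    rw [u1]
    refine (add_le_add_left u2 _).trans (hasSum_le (fun n => ?_)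
      ((s1 _).hasSum.add (fl_sum η).hasSum) (hasSum_geometric_two' 1))
    rw [norm_smul, e_norm, mul_one, Real.norm_of_nonneg (mul_nonneg (by positivity) (c η _).2.1)]
    by_cases f : η (Nat.pair 0 n) = true
    · have : ¬ In η (b n :: nd b n) := fun i => by
        have := i.2.1
        rw [nd_length, f] at this
        exact absurd this (by simp)
      simp only [c, fl, if_pos f, if_neg this]
      exact le_of_eq (by ring)
    · simp only [fl, if_neg f, add_zero]
      exact mul_le_of_le_one_right (by positivity) (c η _).2.2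
  · have := congrArg (fun x : C => ‖x fun _ => true‖) z
    have t : Φ (e none) (fun _ => true) = (1 / 2 : ℝ) • e none := M_const c_top _
    simp [t, norm_smul, e_norm] at this
  · show M (c δ) (e none) ≤ M (c δ) (G + e none)
    rw [map_add]
    exact le_add_of_nonneg_left (M_nonneg _ G0)

end Pool.Agent.H.MP_4a2ece_lc
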