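import Mathlib
import Pool.Agent.H.MP_4a2ece_lc.B
import Pool.Agent.H.MP_86dbc5_an.F

namespace Pool.Agent.H.MP_4a2ece_lc

open MeasureTheory Set Filter Topology TopologicalSpace Metric Pool.Agent.H.MP_86dbc5_an

theorem sc : SecondCountableTopology C := by
  haveI : Fact ((1 : ENNReal) ≠ ⊤) := ⟨ENNReal.one_ne_top⟩
  infer_instance

theorem abs_cont : Continuous fun x : C => |x| :=
  ContinuousMap.continuous_postcomp (X := ℕ → Bool)
    (⟨fun g : L => |g|, continuous_id.sup continuous_neg⟩ : C(L, L))

theorem ana0 {X : Type} [NormedAddCommGroup X] [NormedSpace ℝ X] [CompleteSpace X]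
    [SecondCountableTopology X] [Lattice X] [IsOrderedAddMonoid X]
    (ac : Continuous fun x : X => |x|) (α : ℕ → X) :
    AnalyticSet {d : ℕ → ℝ | ∃ F : Submodule ℝ X, (IsClosed (F : Set X) ∧ ∀ y ∈ F, |y| ∈ F) ∧
      (¬ ∀ x ∈ F, ∀ y ∈ F, 0 < y → y ≤ x → ‖x - y‖ < ‖x‖) ∧
      (fun n => infDist (α n) (F : Set X)) = d} := by
  borelize X
  have D : ∀ z : (ℕ → X) × X × X → X, Measurable z →
      Measurable fun p => infDist (z p) (range p.1) := fun z hz => by
    have : ∀ p : (ℕ → X) × X × X, infDist (z p) (range p.1) = ⨅ n, dist (z p) (p.1 n) :=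
      fun p => by rw [infDist_eq_iInf]; exact iInf_range' (fun y => dist (z p) y) p.1
    simp only [this]
    exact Measurable.iInf fun n => hz.dist (by fun_prop)
  have D' : ∀ z : (ℕ → X) × X × X → X, Continuous z →
      Measurable fun p => z p ∈ closure (range p.1) := fun z hz => by
    simp only [mem_closure_iff_infDist_zero (range_nonempty _)]
    exact measurableSet_setOfPred.1 (D z hz.measurable (measurableSet_singleton 0))
  have mB : MeasurableSet {p : (ℕ → X) × X × X | ((∀ n m, p.1 n + p.1 m ∈ closure (range p.1)) ∧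
      (∀ n, ∀ q : ℚ, (q : ℝ) • p.1 n ∈ closure (range p.1)) ∧
      (∀ n, |p.1 n| ∈ closure (range p.1))) ∧ p.2.1 ∈ closure (range p.1) ∧
      p.2.2 ∈ closure (range p.1) ∧ |p.2.2| = p.2.2 ∧ ¬ p.2.2 = 0 ∧
      |p.2.1 - p.2.2| = p.2.1 - p.2.2 ∧ ‖p.2.1‖ ≤ ‖p.2.1 - p.2.2‖} := by
    refine measurableSet_setOfPred.2 (.and (.and ?_ (.and ?_ ?_)) (.and (D' _ (by fun_prop))
      (.and (D' _ (by fun_prop)) (.and ?_ (.and (.not ?_) (.and ?_ ?_))))))
    · exact .forall fun n => .forall fun m => D' _ (by fun_prop)
    · exact .forall fun n => .forall fun m => D' _ (by fun_prop)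
    · exact .forall fun n => D' _ (ac.comp (by fun_prop))
    · exact measurableSet_setOfPred.1 (isClosed_eq (ac.comp (by fun_prop))
        (by fun_prop)).measurableSet
    · exact measurableSet_setOfPred.1 (isClosed_eq (by fun_prop) (by fun_prop)).measurableSet
    · exact measurableSet_setOfPred.1 (isClosed_eq (ac.comp (by fun_prop))
        (by fun_prop)).measurableSet
    · exact measurableSet_setOfPred.1 (isClosed_le (by fun_prop) (by fun_prop)).measurableSet
  have mf : Measurable fun (p : (ℕ → X) × X × X) (n : ℕ) => infDist (α n) (range p.1) :=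
    measurable_pi_lambda _ fun n => D (fun _ => α n) measurable_const
  have an := mB.analyticSet_image mf
  refine Eq.subst (Subset.antisymm ?_ ?_).symm an
  · rintro _ ⟨F, ⟨F1, F2⟩, hF, rfl⟩
    push Not at hF
    obtain ⟨x, hx, y, hy, y0, yx, h⟩ := hF
    obtain ⟨u, hu⟩ := exists_dense_seq F
    have cl : closure (range fun n => (u n : X)) = F := by
      refine Subset.antisymm (F1.closure_subset_iff.2 (range_subset_iff.2 fun n => (u n).2))
        fun z hz => ?_
      exact map_mem_closure (f := Subtype.val) continuous_subtype_val (hu ⟨z, hz⟩)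
        (by rintro _ ⟨n, rfl⟩; exact ⟨n, rfl⟩)
    refine ⟨(fun n => u n, x, y), ?_, funext fun n => ?_⟩
    · simp only [mem_ofPred_eq, cl]
      exact ⟨⟨fun n m => F.add_mem (u n).2 (u m).2, fun n q => F.smul_mem _ (u n).2,
        fun n => F2 _ (u n).2⟩, hx, hy, abs_of_nonneg y0.le, y0.ne',
        abs_of_nonneg (sub_nonneg.2 yx), h⟩
    · rw [← cl, infDist_closure]
  · rintro _ ⟨⟨u, x, y⟩, ⟨⟨h1, h2, h3⟩, hx, hy, y0, y1, yx, h⟩, rfl⟩
    have sm : ∀ (r : ℝ) (z : X), z ∈ closure (range u) → r • z ∈ closure (range u) :=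
      fun r z hz => by
      rw [← closure_closure]
      refine map_mem_closure (f := fun z => r • z) (by fun_prop) hz ?_
      rintro _ ⟨n, rfl⟩
      exact Rat.denseRange_cast.induction_on r (isClosed_closure.preimage (by fun_prop)) (h2 n)
    refine ⟨{ carrier := closure (range u)
              add_mem' := fun {a b} ha hb => ?_
              zero_mem' := zero_smul ℝ (u 0) ▸ sm 0 _ (subset_closure ⟨0, rfl⟩)
              smul_mem' := sm }, ⟨isClosed_closure, fun z hz => ?_⟩, fun k => ?_, ?_⟩
    · rw [← closure_closure]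
      refine map_mem_closure₂ (f := fun a b : X => a + b) continuous_add ha hb ?_
      rintro _ ⟨n, rfl⟩ _ ⟨m, rfl⟩
      exact h1 n m
    · show |z| ∈ closure (range u)
      rw [← closure_closure]
      refine map_mem_closure ac hz ?_
      rintro _ ⟨n, rfl⟩
      exact h3 n
    · have y0' : |y| = y := y0
      have yx' : |x - y| = x - y := yx
      exact (k x hx y hy (lt_of_le_of_ne (y0' ▸ abs_nonneg y) (Ne.symm y1))
        (sub_nonneg.1 (yx' ▸ abs_nonneg _))).not_ge h
    · exact funext fun n => infDist_closure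

theorem pull {X Z : Type} [TopologicalSpace X] [TopologicalSpace Z] {E : X → Z}
    (ind : IsInducing E) (inj : Function.Injective E) {A : Set X} (an : AnalyticSet (E '' A)) :
    AnalyticSet A := by
  rw [AnalyticSet] at an
  rcases an with h | ⟨f, hf, h⟩
  · rw [image_eq_empty.1 h]; exact analyticSet_empty
  · choose g g1 g2 using fun z => h.subset (mem_range_self z)
    have : range g = A := Subset.antisymm (range_subset_iff.2 g1) fun F hF => by
      obtain ⟨z, hz⟩ := h.symm.subset (mem_image_of_mem E hF)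
      exact ⟨z, inj ((g2 z).trans hz)⟩
    rw [← this]
    exact analyticSet_range_of_polishSpace (ind.continuous_iff.2 (hf.congr fun z => (g2 z).symm))

theorem ana {α : ℕ → C} (hα : DenseRange α) : @AnalyticSet _ (wijs α) STMᶜ := by
  letI := wijs α
  haveI := sc
  refine pull (E := fun (F : Subl) n => infDist (α n) (F.1 : Set C)) ⟨rfl⟩ (fun F G h => ?_) ?_
  · have : ∀ x, infDist x (F.1 : Set C) = infDist x (G.1 : Set C) := fun x =>
      hα.induction_on x (isClosed_eq (continuous_infDist_pt _) (continuous_infDist_pt _))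
        fun n => congrFun h n
    refine Subtype.ext (Submodule.ext fun x => ?_)
    rw [← SetLike.mem_coe, ← SetLike.mem_coe, F.2.1.mem_iff_infDist_zero ⟨0, F.1.zero_mem⟩,
      G.2.1.mem_iff_infDist_zero ⟨0, G.1.zero_mem⟩, this]
  · convert ana0 abs_cont α using 1
    exact Subset.antisymm (fun _ ⟨F, h, e⟩ => ⟨F.1, F.2, h, e⟩) fun _ ⟨F, h, k, e⟩ => ⟨⟨F, h⟩, k, e⟩

/-- downward closed version of a predicate on lists -/
def pc (P : List ℕ → Prop) : List ℕ → Prop
  | [] => True
  | k :: s => P (k :: s) ∧ pc P s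

theorem hard (α : ℕ → C) {Y : Type} [TopologicalSpace Y] [PolishSpace Y]
    (hY : IsTopologicalBasis {s : Set Y | IsClopen s}) {B : Set Y} (hB : AnalyticSet Bᶜ) :
    ∃ f : Y → Subl, Continuous[_, wijs α] f ∧ f ⁻¹' STM = B := by
  classical
  obtain ⟨U, U1, U2, U3⟩ := hY.exists_countable
  obtain ⟨V, hV⟩ := (U2.insert ∅).exists_eq_range (insert_nonempty _ _)
  have V1 : ∀ n, IsClopen (V n) := fun n => by
    rcases hV.symm.subset (mem_range_self n) with h | h
    · rw [h]; exact isClopen_empty
    · exact U1 h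
  obtain ⟨j, hj⟩ : ∃ j : Y → ℕ → ℕ, j = fun y n => if y ∈ V n then 1 else 0 := ⟨_, rfl⟩
  have jc : Continuous j := by
    rw [hj]
    refine continuous_pi fun n => Continuous.if (fun a ha => ?_) continuous_const continuous_const
    rw [ofPred_mem_eq, (V1 n).frontier_eq] at ha
    exact ha.elim
  have ji : Function.Injective j := fun y z h => by
    refine (U3.inseparable_iff.2 fun s hs => ?_).eq
    obtain ⟨n, rfl⟩ := hV.subset (mem_insert_of_mem _ hs)
    have := congrFun h n
    simp only [hj] at this
    by_cases a : y ∈ V n <;> by_cases b : z ∈ V n <;> simp_all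
  obtain ⟨P, P1, P2, P3⟩ := tree (hB.image_of_continuous jc)
  have lc : ∀ s, IsLocallyConstant fun y => pc (P y) s := fun s => by
    induction s with
    | nil => exact IsLocallyConstant.const _
    | cons k s ih => exact (P1 (k :: s)).comp₂ ih And
  refine ⟨fun y => F fun o => ∀ p, o = some p → pc (P (j y)) (p.1 :: p.2),
    continuous_induced_rng.2 (continuous_pi fun n => F_cont (fun o => ?_) _), ext fun y => ?_⟩
  · cases o with
    | none => simpa using IsLocallyConstant.of_constant (fun _ : Y => True) fun _ _ => rfl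
    | some p => simpa [Function.comp_def] using (lc (p.1 :: p.2)).comp_continuous jc
  · constructor
    · refine fun h => by_contra fun hy => ?_
      obtain ⟨b, hb⟩ := P2 _ (mem_image_of_mem j hy)
      have : ∀ n, pc (P (j y)) (nd b n) := fun n => by
        induction n with
        | zero => trivial
        | succ n ih => exact ⟨hb n, ih⟩
      refine F_not (b := b) (by simp) (fun n p hp => ?_) h
      obtain rfl := Option.some.inj hp
      exact this (n + 1)
    · refine fun hy => F_stm fun b => ?_
      obtain ⟨n, hn⟩ : ∃ n, ¬ P (j y) (nd b (n + 1)) := by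
        by_contra! k
        obtain ⟨z, hz, e⟩ := P3 (j y) (nd b) b fun n => ⟨rfl, k n⟩
        exact hz (ji e ▸ hy)
      have : ∀ m, n ≤ m → ¬ pc (P (j y)) (nd b (m + 1)) := fun m hm => by
        induction m, hm using Nat.le_induction with
        | base => exact fun i => hn i.1
        | succ m hm ih => exact fun i => ih i.2
      exact ⟨n, fun p hp e => not_le.1 fun i => this _ i (e ▸ hp p rfl)⟩

end Pool.Agent.H.MP_4a2ece_lc
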